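import Mathlib

set_option autoImplicit false

namespace Pool.Agent.U962.NearPerfect

/-- a positive integer dividing a positive integer is at most that integer -/
lemma le_of_dvd' {a b : ℤ} (hb : 0 < b) (h : a ∣ b) : a ≤ b := Int.le_of_dvd hb h

lemma I0 (p x q A D : ℤ) (hp : 3 ≤ p) (hx : p + 1 ≤ x) (hq : p ≤ q) (hA : 2 * A ≤ x)
    (hD : 2 * D ≤ x * q) (E : (x - p) * (p ^ 2 * q) = (x - 1) + (p - 1) * (A + D)) : False := by
  have h1 : 2 * ((x - p) * (p ^ 2 * q)) ≤ 2 * (x - 1) + (p - 1) * (x + x * q) := by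
    rw [E]
    nlinarith [mul_le_mul_of_nonneg_left hA (by linarith : (0:ℤ) ≤ p - 1),
      mul_le_mul_of_nonneg_left hD (by linarith : (0:ℤ) ≤ p - 1)]
  obtain ⟨r, rfl⟩ : ∃ r, p = 3 + r := ⟨p - 3, by ring⟩
  obtain ⟨s, rfl⟩ : ∃ s, x = 3 + r + 1 + s := ⟨x - (3 + r + 1), by ring⟩
  obtain ⟨t, rfl⟩ : ∃ t, q = 3 + r + t := ⟨q - (3 + r), by ring⟩
  have hr : 0 ≤ r := by linarith
  have hs : 0 ≤ s := by linarith
  have ht : 0 ≤ t := by linarith
  have : 0 < 2 * ((3 + r + 1 + s - (3 + r)) * ((3 + r) ^ 2 * (3 + r + t)))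
      - (2 * (3 + r + 1 + s - 1) + (3 + r - 1) * (3 + r + 1 + s + (3 + r + 1 + s) * (3 + r + t))) := by
    ring_nf
    positivity
  linarith

lemma I1 (p x q A B : ℤ) (hp : 3 ≤ p) (hx : p + 1 ≤ x) (hev : 2 ∣ x) (hq : p ^ 2 ≤ q)
    (hA0 : 1 ≤ A) (hA : 2 * A ≤ x) (hB : 2 * B ≤ x) (hdiv : q ∣ x - 1 + (p - 1) * A)
    (E : (x - p) * (p * q) = (x - 1) + (p - 1) * (A + B * q)) : False := by
  have hq0 : 0 < q := by nlinarith
  have h1 : 2 * ((x - p) * (p * q)) ≤ 2 * (x - 1) + (p - 1) * (x + x * q) := by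
    rw [E]
    nlinarith [mul_le_mul_of_nonneg_left hA (by linarith : (0:ℤ) ≤ p - 1),
      mul_le_mul_of_nonneg_left (mul_le_mul_of_nonneg_right hB hq0.le)
        (by linarith : (0:ℤ) ≤ p - 1)]
  have h2 : x < 2 * p := by
    by_contra hcon
    push Not at hcon
    have h3 : 0 ≤ (x - 2 * p) * ((q - 1) * (p + 1)) :=
      mul_nonneg (by linarith) (mul_nonneg (by linarith) (by linarith))
    nlinarith
  have h4 : x ≤ 2 * p - 2 := by omega
  have h5 : q ≤ x - 1 + (p - 1) * A := le_of_dvd' (by nlinarith) hdiv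
  nlinarith

lemma I2 (p x Q A B : ℤ) (hp : 3 ≤ p) (hQ : p ^ 3 ≤ Q) (hx : 1 ≤ x)
    (hA0 : 1 ≤ A) (hA : 2 * A ≤ x) (hB0 : 1 ≤ B) (hBx : B ∣ x)
    (E : (x - p) * Q = (x - 1) + (p - 1) * (A + B * Q)) : False := by
  have hQ0 : 0 < Q := lt_of_lt_of_le (by positivity) hQ
  obtain ⟨z, hz⟩ : ∃ z, z = x - p - (p - 1) * B := ⟨_, rfl⟩
  have hzQ : z * Q = x - 1 + (p - 1) * A := by rw [hz]; linarith
  have hz1 : 1 ≤ z := by
    by_contra hcon
    have : z ≤ 0 := by omega
    nlinarith
  have hB : B ∣ z + p := by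
    have : z + p = x - B * (p - 1) := by rw [hz]; ring
    rw [this]
    exact dvd_sub hBx (dvd_mul_right _ _)
  have hB' : B ≤ z + p := le_of_dvd' (by linarith) hB
  have hx' : x ≤ p * (z + p) := by nlinarith
  have h1 : 2 * (z * p ^ 3) ≤ 2 * (z * Q) := by nlinarith
  have h2 : 2 * (z * p ^ 3) ≤ (p + 1) * (p * (z + p)) := by nlinarith
  obtain ⟨r, rfl⟩ : ∃ r, p = 3 + r := ⟨p - 3, by ring⟩
  obtain ⟨s, rfl⟩ : ∃ s, z = 1 + s := ⟨z - 1, by ring⟩
  have hr : 0 ≤ r := by linarith
  have hs : 0 ≤ s := by linarith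
  have : 0 < 2 * ((1 + s) * (3 + r) ^ 3) - (3 + r + 1) * ((3 + r) * (1 + s + (3 + r))) := by
    ring_nf
    positivity
  linarith

lemma II0 (p x q D : ℤ) (hp : 3 ≤ p) (hx : p + 1 ≤ x) (hev : 2 ∣ x) (hodd : ¬ 2 ∣ p) (hq : p ^ 2 ≤ q)
    (hD : 4 * D ≤ 3 * (x * q)) (hdiv : p ∣ x - 1)
    (E : (x - p) * (p * q) = (x - 1) + (p - 1) * D) : x = p + 1 ∨ x = 3 * p + 1 := by
  have hq0 : 0 < q := by nlinarith
  have h1 : 4 * ((x - p) * (p * q)) ≤ 4 * (x - 1) + (p - 1) * (3 * (x * q)) := by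
    rw [E]
    nlinarith [mul_le_mul_of_nonneg_left hD (by linarith : (0:ℤ) ≤ p - 1)]
  have h2 : x < 4 * p := by
    by_contra hcon
    push Not at hcon
    have h3 : 0 ≤ (x - 4 * p) * ((p + 3) * q - 4) :=
      mul_nonneg (by linarith) (by nlinarith)
    nlinarith [mul_pos (by linarith : (0:ℤ) < p) hq0]
  obtain ⟨y, hy⟩ := hdiv
  have hy1 : 1 ≤ y := by
    by_contra hcon
    have : y ≤ 0 := by omega
    nlinarith
  have hy3 : y ≤ 3 := by
    by_contra hcon
    have : 4 ≤ y := by omega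
    nlinarith
  interval_cases y
  · left; linarith
  · exfalso
    omega
  · right; linarith

lemma II0b (p q A D : ℤ) (hp : 3 ≤ p) (hq : p ^ 2 ≤ q) (hA : 2 * A ≤ 3 * p + 1)
    (hD : 2 * D ≤ (3 * p + 1) * q)
    (E : (3 * p + 1 - p) * (p * q) = (3 * p + 1 - 1) + (p - 1) * (A * p + D)) : False := by
  have h1 : 2 * ((3 * p + 1 - p) * (p * q)) ≤ 2 * (3 * p) + (p - 1) * ((3 * p + 1) * p + (3 * p + 1) * q) := by
    rw [E]
    nlinarith [mul_le_mul_of_nonneg_left (mul_le_mul_of_nonneg_right hA (by linarith : (0:ℤ) ≤ p))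
        (by linarith : (0:ℤ) ≤ p - 1),
      mul_le_mul_of_nonneg_left hD (by linarith : (0:ℤ) ≤ p - 1)]
  obtain ⟨r, rfl⟩ : ∃ r, p = 3 + r := ⟨p - 3, by ring⟩
  obtain ⟨t, rfl⟩ : ∃ t, q = (3 + r) ^ 2 + t := ⟨q - (3 + r) ^ 2, by ring⟩
  have hr : 0 ≤ r := by linarith
  have ht : 0 ≤ t := by linarith
  have : 0 < 2 * ((3 * (3 + r) + 1 - (3 + r)) * ((3 + r) * ((3 + r) ^ 2 + t)))
      - (2 * (3 * (3 + r)) + (3 + r - 1) * ((3 * (3 + r) + 1) * (3 + r) +
        (3 * (3 + r) + 1) * ((3 + r) ^ 2 + t))) := by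
    ring_nf
    positivity
  linarith

lemma not_dvd_one' {p : ℤ} (hp : 3 ≤ p) : ¬ p ∣ 1 := by
  intro h
  have := le_of_dvd' one_pos h
  linarith

lemma II0a (p A B : ℤ) (m b1 b2 : ℕ) (hp : 3 ≤ p) (hm : 3 ≤ m) (hA0 : 1 ≤ A) (hB0 : 1 ≤ B)
    (hA : 2 * A ≤ p + 1) (hB : 2 * B ≤ p + 1) (hAB : b1 = b2 → 4 * (A + B) ≤ 3 * (p + 1))
    (hb1 : 1 ≤ b1) (hb : b1 ≤ b2) (E : p ^ m = p + (p - 1) * (A * p ^ b1 + B * p ^ b2)) :
    m = 3 := by
  obtain ⟨β1, rfl⟩ : ∃ β, b1 = β + 1 := ⟨b1 - 1, by omega⟩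
  obtain ⟨β2, rfl⟩ : ∃ β, b2 = β + 1 := ⟨b2 - 1, by omega⟩
  obtain ⟨ν, rfl⟩ : ∃ ν, m = ν + 2 := ⟨m - 2, by omega⟩
  have hp0 : p ≠ 0 := by linarith
  have E1 : p ^ (ν + 1) = 1 + (p - 1) * (A * p ^ β1 + B * p ^ β2) := by
    apply mul_left_cancel₀ hp0
    rw [← pow_succ'] 
    rw [show ν + 1 + 1 = ν + 2 by ring, E]
    ring
  have hd : p ∣ 1 - (A * p ^ β1 + B * p ^ β2) := by
    have h1 : p ∣ p ^ (ν + 1) := dvd_pow_self p (by omega)
    have h2 : 1 - (A * p ^ β1 + B * p ^ β2) =
        p ^ (ν + 1) - p * (A * p ^ β1 + B * p ^ β2) := by rw [E1]; ring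
    rw [h2]
    exact dvd_sub h1 (dvd_mul_right _ _)
  rcases Nat.eq_zero_or_pos β1 with h1 | h1
  · subst h1
    rcases Nat.eq_zero_or_pos β2 with h2 | h2
    · subst h2
      exfalso
      simp only [pow_zero, mul_one] at hd
      have h3 := hAB rfl
      have h4 : p ∣ A + B - 1 := by
        have := (dvd_neg.2 hd)
        rwa [show -(1 - (A + B)) = A + B - 1 by ring] at this
      have h5 := le_of_dvd' (by linarith) h4
      linarith
    · obtain ⟨γ, rfl⟩ : ∃ γ, β2 = γ + 1 := ⟨β2 - 1, by omega⟩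
      have h3 : p ∣ A - 1 := by
        have h4 : A - 1 = -(1 - (A * p ^ 0 + B * p ^ (γ + 1))) - p * (B * p ^ γ) := by ring
        rw [h4]
        exact dvd_sub (dvd_neg.2 hd) (dvd_mul_right _ _)
      have hA1 : A = 1 := by
        by_contra hne
        have := le_of_dvd' (by omega) h3
        linarith
      subst hA1
      have E2 : p ^ ν = 1 + (p - 1) * B * p ^ γ := by
        apply mul_left_cancel₀ hp0
        rw [← pow_succ', E1]
        ring
      rcases Nat.eq_zero_or_pos γ with h5 | h5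
      · subst h5
        have h6 : p ^ ν < p ^ 2 := by
          rw [E2]
          nlinarith
        have h7 : ν < 2 := (pow_lt_pow_iff_right₀ (by linarith : (1:ℤ) < p)).1 h6
        omega
      · exfalso
        apply not_dvd_one' hp
        have h6 : (1:ℤ) = p ^ ν - (p - 1) * B * p ^ γ := by rw [E2]; ring
        rw [h6]
        exact dvd_sub (dvd_pow_self p (by omega)) ((dvd_pow_self p (by omega)).mul_left _)
  · exfalso
    apply not_dvd_one' hp
    have h6 : (1:ℤ) = (1 - (A * p ^ β1 + B * p ^ β2)) + (A * p ^ β1 + B * p ^ β2) := by ring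
    rw [h6]
    exact dvd_add hd (dvd_add ((dvd_pow_self p (by omega)).mul_left _)
      ((dvd_pow_self p (by omega)).mul_left _))

lemma II1 (p x Q A B : ℤ) (hp : 3 ≤ p) (hQ : p ^ 3 ≤ Q) (hx : 2 ≤ x)
    (hA0 : 1 ≤ A) (hB0 : 1 ≤ B) (hAB : A ∣ B) (hBx : B ∣ x)
    (hdiv : Q ∣ x - 1)
    (E : (x - p) * Q = (x - 1) + (p - 1) * ((A + B) * Q)) : x = 1 + Q ∧ Q < p ^ 4 := by
  have hQ0 : 0 < Q := lt_of_lt_of_le (by positivity) hQ
  obtain ⟨w, hw⟩ := hdiv
  have hw1 : 1 ≤ w := by
    by_contra hcon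
    have : w ≤ 0 := by omega
    nlinarith
  have hx' : x = w + p + (p - 1) * (A + B) := by
    have : Q * (x - p) = Q * (w + (p - 1) * (A + B)) := by
      rw [hw] at E; linarith
    have := mul_left_cancel₀ hQ0.ne' this
    linarith
  have hA : A ∣ w + p := by
    have h1 : w + p = x - (A * (p - 1) + B * (p - 1)) := by rw [hx']; ring
    rw [h1]
    exact dvd_sub (hAB.trans hBx) (dvd_add (dvd_mul_right _ _) (hAB.mul_right _))
  have hB : B ∣ w + p + (p - 1) * A := by
    have h1 : w + p + (p - 1) * A = x - B * (p - 1) := by rw [hx']; ring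
    rw [h1]
    exact dvd_sub hBx (dvd_mul_right _ _)
  have hA' := le_of_dvd' (by linarith) hA
  have hB' := le_of_dvd' (by nlinarith) hB
  have hp1 : (0:ℤ) ≤ p - 1 := by linarith
  have h0 : w + p + (p - 1) * A ≤ p * (w + p) := by
    have := mul_le_mul_of_nonneg_left hA' hp1
    linarith
  have h01 : x ≤ p * (w + p + (p - 1) * A) := by
    have := mul_le_mul_of_nonneg_left hB' hp1
    linarith
  have h1 : x ≤ p ^ 2 * (w + p) := by
    have := mul_le_mul_of_nonneg_left h0 (by linarith : (0:ℤ) ≤ p)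
    linarith
  have h2 : w * (Q - p ^ 2) ≤ p ^ 3 - 1 := by linarith
  have h33 : 3 * p ^ 2 ≤ p ^ 3 := by
    have := mul_le_mul_of_nonneg_right hp (by positivity : (0:ℤ) ≤ p ^ 2)
    linarith
  have hp2 : 9 ≤ p ^ 2 := by nlinarith
  have hw2 : w = 1 := by
    by_contra hne
    have h3 : 2 ≤ w := by omega
    have h4 : 0 ≤ (w - 2) * (Q - p ^ 2) := mul_nonneg (by linarith) (by linarith)
    linarith
  subst hw2
  have h44 : 3 * p ^ 3 ≤ p ^ 4 := by
    have := mul_le_mul_of_nonneg_right hp (by positivity : (0:ℤ) ≤ p ^ 3)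
    linarith
  constructor
  · linarith
  · linarith

lemma not_four {p x : ℤ} (hodd : ¬ 2 ∣ p) (hx : 4 ∣ x) (h : x = 1 + p ^ 2) : False := by
  obtain ⟨k, hk⟩ : ∃ k, p = 2 * k + 1 := ⟨p / 2, by omega⟩
  obtain ⟨l, hl⟩ := hx
  have : 4 * l = 4 * (k * k + k) + 2 := by
    rw [← hl, h, hk]; ring
  omega

/-- the key relations in case II2 -/
lemma II2 (p x q : ℤ) (a c : ℕ) (hp : 3 ≤ p) (hodd : ¬ 2 ∣ p) (hx : 2 ≤ x) (hx4 : 4 ∣ x)
    (hq : q = p ^ 2 ∨ p ^ 3 ≤ q) (hpq : p ∣ q) (hA : (2:ℤ) ^ a ∣ x) (hC : (2:ℤ) ^ c ∣ x)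
    (hC2 : 2 * (2:ℤ) ^ c ≤ x) (hdiv : q ∣ x - 1)
    (E : (x - p) * (p * q) = (x - 1) + (p - 1) * ((2:ℤ) ^ c * q + (2:ℤ) ^ a * (p * q))) :
    False := by
  have hp1 : (0:ℤ) ≤ p - 1 := by linarith
  have hp2 : 9 ≤ p ^ 2 := by nlinarith
  have h33 : 3 * p ^ 2 ≤ p ^ 3 := by
    have := mul_le_mul_of_nonneg_right hp (by positivity : (0:ℤ) ≤ p ^ 2)
    linarith
  have hqge : p ^ 2 ≤ q := by rcases hq with h | h <;> linarith
  have hq0 : 0 < q := by linarith
  obtain ⟨A, hAdef⟩ : ∃ A : ℤ, A = 2 ^ a := ⟨_, rfl⟩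
  obtain ⟨C, hCdef⟩ : ∃ C : ℤ, C = 2 ^ c := ⟨_, rfl⟩
  have hA1 : 1 ≤ A := by rw [hAdef]; exact one_le_pow₀ (by norm_num)
  have hC1 : 1 ≤ C := by rw [hCdef]; exact one_le_pow₀ (by norm_num)
  rw [← hAdef] at hA E
  rw [← hCdef] at hC hC2 E
  obtain ⟨w, hw⟩ := hdiv
  have hw1 : 1 ≤ w := by
    by_contra hcon
    have : w ≤ 0 := by omega
    nlinarith
  have hx1 : x = 1 + w * q := by linarith
  have E1 : (x - p) * p = w + (p - 1) * (C + A * p) := by
    apply mul_left_cancel₀ hq0.ne'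
    linarith
  have hdw : p ∣ C - w := by
    have : C - w = p * (C + (p - 1) * A - (x - p)) := by linarith
    rw [this]; exact dvd_mul_right _ _
  obtain ⟨e, he⟩ := hdw
  have hCe : C = w + p * e := by linarith
  have hxe : x = (p - 1) * A + C + p - e := by
    apply mul_left_cancel₀ (by linarith : p ≠ 0)
    have : p * ((p - 1) * A + C + p - e) = p * (p - 1) * A + p * C + p ^ 2 - (C - w) := by
      rw [he]; ring
    rw [this]; linarith
  have R : (p - 1) * (A + 1 + e) = w * (q - 1) := by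
    have : (p - 1) * (A + 1 + e) = x - C - p + e + (p - 1) * (1 + e) := by rw [hxe]; ring
    rw [this, hx1, hCe]; ring
  have heC : e < C := by
    by_contra hcon
    push Not at hcon
    have : 0 < e := by linarith
    nlinarith
  -- a helper: w = 1 and q = p^2 is impossible
  have key : w * (q - 1) ≤ p ^ 2 - 1 → False := by
    intro h
    have hw' : w = 1 := by
      by_contra hne
      have h3 : 2 ≤ w := by omega
      have h4 : 0 ≤ (w - 2) * (q - 1) := mul_nonneg (by linarith) (by linarith)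
      linarith
    subst hw'
    have hqq : q = p ^ 2 := by linarith
    exact not_four hodd hx4 (by rw [hx1, hqq]; ring)
  rcases le_or_gt c a with hca | hca
  · -- C ∣ A
    have hCA : C ∣ A := by rw [hAdef, hCdef]; exact pow_dvd_pow _ hca
    have hAd : A ∣ C + p - e := by
      have : C + p - e = x - A * (p - 1) := by rw [hxe]; ring
      rw [this]; exact dvd_sub hA (dvd_mul_right _ _)
    rcases eq_or_lt_of_le hca with hca' | hca'
    · -- A = C
      have hEq : A = C := by rw [hAdef, hCdef, hca']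
      have hAe : A ∣ p - e := by
        have : p - e = (C + p - e) - A := by rw [hEq]; ring
        rw [this]; exact dvd_sub hAd dvd_rfl
      rcases lt_trichotomy e p with hep | hep | hep
      · have h1 : A ≤ p - e := le_of_dvd' (by linarith) hAe
        have h2 : C * (p + 1) ≤ p ^ 2 + w := by
          rw [hEq] at h1
          have := mul_le_mul_of_nonneg_left h1 (by linarith : (0:ℤ) ≤ p)
          linarith
        have h3 : (p - 1) * ((p + 1) * C + p) = w * (p * q - 1) := by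
          have h31 : p * ((p - 1) * (A + 1 + e)) = p * (w * (q - 1)) := by rw [R]
          rw [hEq] at h31
          have h32 : p * ((p - 1) * (C + 1 + e)) = (p - 1) * (p * C + p + (C - w)) := by
            rw [he]; ring
          rw [h32] at h31
          linarith
        have h4 : w * (q - 1) ≤ p ^ 2 - 1 := by
          have h41 := mul_le_mul_of_nonneg_left h2 hp1
          have h42 : p * (w * (q - 1)) ≤ p * (p ^ 2 - 1) := by linarith
          exact le_of_mul_le_mul_left h42 (by linarith)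
        exact key h4
      · -- e = p
        subst hep
        have h5 : w * (q - e) = e ^ 3 - 1 := by
          rw [hEq, hCe] at R
          linarith
        apply not_dvd_one' hp
        have h6 : (1:ℤ) = e * e ^ 2 - w * (q - e) := by rw [h5]; ring
        rw [h6]
        exact dvd_sub (dvd_mul_right _ _) ((dvd_sub hpq dvd_rfl).mul_left _)
      · have hAe' : A ∣ e - p := by
          have := dvd_neg.2 hAe
          rwa [neg_sub] at this
        have h1 : A ≤ e - p := le_of_dvd' (by linarith) hAe'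
        linarith
    · -- A ≥ 2 C
      have h2C : 2 * C ≤ A := by
        rw [hAdef, hCdef, ← pow_succ']
        exact pow_le_pow_right₀ (by norm_num) hca'
      have h1 : A ≤ C + p - e := le_of_dvd' (by linarith) hAd
      have h2 : C ≤ p - e := by linarith
      have h3 : C * (p + 1) ≤ p ^ 2 + w := by
        have := mul_le_mul_of_nonneg_left h2 (by linarith : (0:ℤ) ≤ p)
        linarith
      have h4 : w * (q - 1) ≤ (p - 1) * (C + p + 1) := by
        rw [← R]
        exact mul_le_mul_of_nonneg_left (by linarith) hp1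
      have h5 : w * (q - 1) * (p + 1) ≤ (p - 1) * (p ^ 2 + w + (p + 1) ^ 2) := by
        have h51 := mul_le_mul_of_nonneg_right h4 (by linarith : (0:ℤ) ≤ p + 1)
        have h52 := mul_le_mul_of_nonneg_left h3 hp1
        linarith
      have hw' : w = 1 := by
        by_contra hne
        have h6 : 2 ≤ w := by omega
        have h7 : w * (p ^ 2 - 1) * (p + 1) ≤ w * (q - 1) * (p + 1) :=
          mul_le_mul_of_nonneg_right (mul_le_mul_of_nonneg_left (by linarith) (by linarith))
            (by linarith)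
        have h8 : (p - 1) * (w * (p + 1) ^ 2) ≤ (p - 1) * (p ^ 2 + w + (p + 1) ^ 2) := by linarith
        have h9 : w * (p + 1) ^ 2 ≤ p ^ 2 + w + (p + 1) ^ 2 :=
          le_of_mul_le_mul_left h8 (by linarith)
        have h10 : 0 ≤ (w - 2) * (p ^ 2 + 2 * p) := mul_nonneg (by linarith) (by nlinarith)
        linarith
      subst hw'
      rcases hq with hqq | hqq
      · exact not_four hodd hx4 (by rw [hx1, hqq]; ring)
      · have h6 : (p ^ 3 - 1) * (p + 1) ≤ 1 * (q - 1) * (p + 1) := by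
          rw [one_mul]
          exact mul_le_mul_of_nonneg_right (by linarith) (by linarith)
        have h7 : (p ^ 3 - 1) * (p + 1) ≤ (p - 1) * (p ^ 2 + 1 + (p + 1) ^ 2) := by linarith
        obtain ⟨r, rfl⟩ : ∃ r, p = 3 + r := ⟨p - 3, by ring⟩
        have hr : 0 ≤ r := by linarith
        have : 0 < ((3 + r) ^ 3 - 1) * (3 + r + 1) - (3 + r - 1) * ((3 + r) ^ 2 + 1 + (3 + r + 1) ^ 2) := by
          ring_nf
          positivity
        linarith
  · -- C ≥ 2 A
    have hAC : A ∣ C := by rw [hAdef, hCdef]; exact pow_dvd_pow _ hca.le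
    have h2A : 2 * A ≤ C := by
      rw [hAdef, hCdef, ← pow_succ']
      exact pow_le_pow_right₀ (by norm_num) hca
    have hAe : A ∣ p - e := by
      have : p - e = x - A * (p - 1) - C := by rw [hxe]; ring
      rw [this]; exact dvd_sub (dvd_sub hA (dvd_mul_right _ _)) hAC
    have hCd : C ∣ (p - 1) * A + p - e := by
      have : (p - 1) * A + p - e = x - C := by rw [hxe]; ring
      rw [this]; exact dvd_sub hC dvd_rfl
    rcases lt_trichotomy e p with hep | hep | hep
    · have h1 : A ≤ p - e := le_of_dvd' (by linarith) hAe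
      apply key
      rw [← R]
      have := mul_le_mul_of_nonneg_left (by linarith : A + 1 + e ≤ p + 1) hp1
      linarith
    · -- e = p
      rw [hep] at R hCe hCd
      rcases hq with hqq | hqq
      · -- q = p^2
        have h1 : A + 1 + p = w * (p + 1) := by
          rw [hqq] at R
          have : (p - 1) * (A + 1 + p) = (p - 1) * (w * (p + 1)) := by linarith
          exact mul_left_cancel₀ (by linarith) this
        have h2 : A = (w - 1) * (p + 1) := by linarith
        have h3 : p + 1 ∣ A := by rw [h2]; exact dvd_mul_left _ _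
        -- 4 ∣ p + 1
        have h4 : (4:ℤ) ∣ p + 1 := by
          obtain ⟨P, rfl⟩ : ∃ P : ℕ, p = (P : ℤ) := ⟨p.toNat, by rw [Int.toNat_of_nonneg (by linarith)]⟩
          rw [hAdef] at h3
          have h5 : P + 1 ∣ 2 ^ a := by exact_mod_cast h3
          obtain ⟨t, -, ht⟩ := (Nat.dvd_prime_pow Nat.prime_two).1 h5
          have h6 : 2 ≤ t := by
            by_contra hcon
            have : t ≤ 1 := by omega
            have h7 : 2 ^ t ≤ 2 ^ 1 := Nat.pow_le_pow_right (by norm_num) this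
            have h8 : (3:ℤ) ≤ P := hp
            have h9 : 3 ≤ P := by exact_mod_cast h8
            omega
          have h7 : (2:ℕ) ^ 2 ∣ P + 1 := by rw [ht]; exact pow_dvd_pow _ h6
          have h8 : (4:ℕ) ∣ P + 1 := h7
          exact_mod_cast h8
        rcases eq_or_lt_of_le (Nat.succ_le_of_lt hca) with hc | hc
        · -- C = 2 A
          have h5 : C = 2 * A := by rw [hCdef, hAdef, ← hc, Nat.succ_eq_add_one, pow_succ']
          have h6 : (2 * p + 1) * (4 * w - 2 * p - 3) = 5 := by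
            rw [h2] at h5
            linarith
          have h7 : (2 * p + 1) ∣ 5 := ⟨_, h6.symm⟩
          have := le_of_dvd' (by norm_num) h7
          linarith
        · have h5 : 4 * A ∣ C := by
            rw [hCdef, hAdef]
            have : (4:ℤ) * 2 ^ a = 2 ^ (a + 2) := by ring
            rw [this]
            exact pow_dvd_pow _ hc
          have h6 : C ∣ (p - 1) * A := by
            have : (p - 1) * A = (p - 1) * A + p - p := by ring
            rw [this]; exact hCd
          have h7 : 4 * A ∣ (p - 1) * A := h5.trans h6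
          have h8 : (4:ℤ) ∣ p - 1 := (mul_dvd_mul_iff_right (by linarith : A ≠ 0)).1 h7
          omega
      · -- q ≥ p^3
        have h1 : (p - 1) * (w * (p ^ 2 + p + 1)) ≤ (p - 1) * (A + 1 + p) := by
          rw [R]
          have := mul_le_mul_of_nonneg_left hqq (by linarith : (0:ℤ) ≤ w)
          linarith
        have h2 : w * (p ^ 2 + p + 1) ≤ A + 1 + p := le_of_mul_le_mul_left h1 (by linarith)
        nlinarith
    · have hAe' : A ∣ e - p := by
        have := dvd_neg.2 hAe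
        rwa [neg_sub] at this
      have h1 : A ≤ e - p := le_of_dvd' (by linarith) hAe'
      have h2 : 2 * (w + p * e) ≤ 1 + w * q := by rw [← hCe, ← hx1]; exact hC2
      have h3 : w * (q - 1) ≤ (p - 1) * (2 * e + 1 - p) := by
        rw [← R]
        exact mul_le_mul_of_nonneg_left (by linarith) hp1
      have h4 := mul_le_mul_of_nonneg_left h3 (by linarith : (0:ℤ) ≤ p)
      have h5 := mul_le_mul_of_nonneg_left h2 hp1
      have h6 : w * q + w * (p - 2) + p * (p - 1) ^ 2 ≤ p - 1 := by linarith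
      have h7 : 0 ≤ w * q := by positivity
      have h8 : 0 ≤ w * (p - 2) := mul_nonneg (by linarith) (by linarith)
      have h9 : p - 1 < p * (p - 1) ^ 2 := by nlinarith
      linarith

/-- case II3: `r = p^{b1}`, `s = p^{m-b1}` -/
lemma II3 (p x r s : ℤ) (a c : ℕ) (hp : 3 ≤ p) (hodd : ¬ 2 ∣ p) (hx : 2 ≤ x) (hx4 : 4 ∣ x)
    (hr : r = p ∨ (p ^ 2 ∣ r ∧ p ^ 2 ≤ r)) (hs : s = p ^ 2 ∨ p ^ 3 ≤ s)
    (hA : (2:ℤ) ^ a ∣ x) (hC2 : 2 * (2:ℤ) ^ c ≤ x) (hdiv : r ∣ x - 1)
    (E : (x - p) * (r * s) = (x - 1) + (p - 1) * ((2:ℤ) ^ c * r + (2:ℤ) ^ a * (r * s))) :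
    False := by
  have hp1 : (0:ℤ) ≤ p - 1 := by linarith
  have hp2 : 9 ≤ p ^ 2 := by nlinarith
  have h33 : 3 * p ^ 2 ≤ p ^ 3 := by
    have := mul_le_mul_of_nonneg_right hp (by positivity : (0:ℤ) ≤ p ^ 2)
    linarith
  have hsge : p ^ 2 ≤ s := by rcases hs with h | h <;> linarith
  have hs0 : 0 < s := by linarith
  have hr0 : 0 < r := by rcases hr with h | ⟨_, h⟩ <;> linarith
  obtain ⟨A, hAdef⟩ : ∃ A : ℤ, A = 2 ^ a := ⟨_, rfl⟩
  obtain ⟨C, hCdef⟩ : ∃ C : ℤ, C = 2 ^ c := ⟨_, rfl⟩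
  have hA1 : 1 ≤ A := by rw [hAdef]; exact one_le_pow₀ (by norm_num)
  have hC1 : 1 ≤ C := by rw [hCdef]; exact one_le_pow₀ (by norm_num)
  rw [← hAdef] at hA E
  rw [← hCdef] at hC2 E
  obtain ⟨w, hw⟩ := hdiv
  have hw1 : 1 ≤ w := by
    by_contra hcon
    have : w ≤ 0 := by omega
    nlinarith
  have hx1 : x = 1 + w * r := by linarith
  obtain ⟨z, hz⟩ : ∃ z, z = x - p - (p - 1) * A := ⟨_, rfl⟩
  have E1 : z * s = w + (p - 1) * C := by
    apply mul_left_cancel₀ hr0.ne'
    rw [hz]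
    linarith
  have hz1 : 1 ≤ z := by
    by_contra hcon
    have h1 : z ≤ 0 := by omega
    have h2 : z * s ≤ 0 := mul_nonpos_of_nonpos_of_nonneg h1 hs0.le
    have h3 : 0 ≤ (p - 1) * C := by positivity
    linarith
  have hAz : A ∣ z + p := by
    have : z + p = x - A * (p - 1) := by rw [hz]; ring
    rw [this]; exact dvd_sub hA (dvd_mul_right _ _)
  have hAz' : A ≤ z + p := le_of_dvd' (by linarith) hAz
  have hxz : x ≤ p * (z + p) := by
    have := mul_le_mul_of_nonneg_left hAz' hp1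
    linarith
  have hwr : p * w ≤ x - 1 := by
    have hpr : p ≤ r := by rcases hr with h | ⟨_, h⟩ <;> nlinarith
    have := mul_le_mul_of_nonneg_right hpr (by linarith : (0:ℤ) ≤ w)
    linarith
  have hCx : (p - 1) * (2 * C) ≤ (p - 1) * x := mul_le_mul_of_nonneg_left hC2 hp1
  have h1 : 2 * p ^ 3 * z ≤ (p ^ 2 - p + 2) * x - 2 := by
    have h11 : z * p ^ 2 ≤ z * s := mul_le_mul_of_nonneg_left hsge (by linarith)
    have h12 := mul_le_mul_of_nonneg_left h11 (by linarith : (0:ℤ) ≤ 2 * p)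
    have h13 := mul_le_mul_of_nonneg_left hCx (by linarith : (0:ℤ) ≤ p)
    rw [E1] at h12
    linarith
  have h2 : (p - 1) * ((p + 2) * x) ≤ (p - 1) * (2 * (p + 1) * (p ^ 2 + 1)) := by
    have h21 := mul_le_mul_of_nonneg_left hxz (by positivity : (0:ℤ) ≤ 2 * p ^ 2)
    linarith
  have h3 : (p + 2) * x ≤ 2 * (p + 1) * (p ^ 2 + 1) := le_of_mul_le_mul_left h2 (by linarith)
  have h4 : x < 2 * p ^ 2 := by
    have h41 : (p + 2) * x < (p + 2) * (2 * p ^ 2) := by nlinarith
    exact lt_of_mul_lt_mul_left h41 (by linarith)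
  rcases hr with hr | ⟨hr, hr'⟩
  · rw [hr] at hx1
    have h5 : z * s < p ^ 3 := by
      rw [E1]
      have h51 : (p - 1) * x ≤ (p - 1) * (2 * p ^ 2) := mul_le_mul_of_nonneg_left h4.le hp1
      have h52 : w < 2 * p := by
        have h521 : p * w < p * (2 * p) := by linarith
        exact lt_of_mul_lt_mul_left h521 (by linarith)
      have h53 : 2 * (w + (p - 1) * C) < 2 * p ^ 3 := by
        have h54 : 2 * (w + (p - 1) * C) = 2 * w + (p - 1) * (2 * C) := by ring
        have h55 : (p - 1) * (2 * p ^ 2) = 2 * p ^ 3 - 2 * p ^ 2 := by ring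
        have h56 : 2 * (2 * p) ≤ 2 * p ^ 2 := by nlinarith
        linarith
      linarith
    have hs2 : s = p ^ 2 := by
      rcases hs with h | h
      · exact h
      · exfalso
        have h53 := mul_le_mul_of_nonneg_right hz1 hs0.le
        linarith
    rw [hs2] at h5 E1
    have hzp : z < p := by
      have h61 : p ^ 2 * z < p ^ 2 * p := by linarith
      exact lt_of_mul_lt_mul_left h61 (by positivity)
    have h6 : z * (p ^ 2 + p + 1) = 1 + p * C + A := by
      apply mul_left_cancel₀ (by linarith : p - 1 ≠ 0)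
      have h61 : z = 1 + w * p - p - (p - 1) * A := by rw [hz, hx1]
      linear_combination (-1 : ℤ) * h61 + p * E1
    have h7 : p ∣ z - 1 - A := by
      have : z - 1 - A = p * (C - z * (p + 1)) := by linarith
      rw [this]; exact dvd_mul_right _ _
    obtain ⟨y, hy⟩ := h7
    have hy1 : y ≤ 0 := by
      by_contra hcon
      have h71 : 1 ≤ y := by omega
      have h72 := mul_le_mul_of_nonneg_left h71 (by linarith : (0:ℤ) ≤ p)
      linarith
    have hy2 : -1 ≤ y := by
      by_contra hcon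
      have h71 : y ≤ -2 := by omega
      have h72 := mul_le_mul_of_nonneg_left h71 (by linarith : (0:ℤ) ≤ p)
      linarith
    interval_cases y
    · -- A = z - 1 + p
      have h8 : A ∣ 1 := by
        have : (1:ℤ) = (z + p) - A := by linarith
        rw [this]; exact dvd_sub hAz dvd_rfl
      have := le_of_dvd' one_pos h8
      linarith
    · -- A = z - 1
      have h8 : C = z * (p + 1) := by
        apply mul_left_cancel₀ (by linarith : p ≠ 0)
        linarith
      have hz2 : 2 ≤ z := by linarith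
      have h9 : z ∣ (2:ℤ) ^ c := by rw [← hCdef, h8]; exact dvd_mul_right _ _
      have h10 : (2:ℤ) ∣ z := by
        obtain ⟨Z, rfl⟩ : ∃ Z : ℕ, z = (Z : ℤ) := ⟨z.toNat, by rw [Int.toNat_of_nonneg (by linarith)]⟩
        have h5 : Z ∣ 2 ^ c := by exact_mod_cast h9
        obtain ⟨t, -, ht⟩ := (Nat.dvd_prime_pow Nat.prime_two).1 h5
        have h6 : t ≠ 0 := by
          rintro rfl
          rw [pow_zero] at ht
          subst ht
          norm_num at hz2
        have h7 : 2 ∣ Z := by rw [ht]; exact dvd_pow_self 2 h6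
        exact_mod_cast h7
      have h11 : a = 0 := by
        by_contra hne
        have h12 : (2:ℤ) ∣ A := by rw [hAdef]; exact dvd_pow_self 2 hne
        omega
      rw [h11, pow_zero] at hAdef
      have h12 : x = 2 * p + 1 := by
        have : z = 2 := by linarith
        rw [this, hAdef] at hz
        linarith
      omega
  · have h5 : p ^ 2 ∣ x - 1 := by rw [hw]; exact hr.mul_right _
    obtain ⟨j, hj⟩ := h5
    have hj1 : j < 2 := by
      have : p ^ 2 * j < p ^ 2 * 2 := by linarith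
      exact lt_of_mul_lt_mul_left this (by positivity)
    have hj2 : 1 ≤ j := by
      by_contra hcon
      have h71 : j ≤ 0 := by omega
      have h72 := mul_le_mul_of_nonneg_left h71 (by positivity : (0:ℤ) ≤ p ^ 2)
      linarith
    have hj3 : j = 1 := by omega
    rw [hj3] at hj
    exact not_four hodd hx4 (by linarith)

lemma master (p : ℤ) (k m a1 a2 b1 b2 : ℕ) (hp : 3 ≤ p) (hodd : ¬ 2 ∣ p) (hk : 1 ≤ k) (hm : 3 ≤ m)
    (ha1 : a1 ≤ k) (ha2 : a2 ≤ k) (hb2 : b2 ≤ m) (hb : b1 ≤ b2)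
    (hne : b1 = b2 → a1 ≠ a2)
    (E : ((2:ℤ) ^ (k + 1) - p) * p ^ m = ((2:ℤ) ^ (k + 1) - 1) +
      (p - 1) * ((2:ℤ) ^ a1 * p ^ b1 + (2:ℤ) ^ a2 * p ^ b2)) :
    m = 3 ∧ p + 1 = (2:ℤ) ^ (k + 1) := by
  obtain ⟨x, hxdef⟩ : ∃ x : ℤ, x = 2 ^ (k + 1) := ⟨_, rfl⟩
  have hp0 : (0:ℤ) < p := by linarith
  have hp1 : (1:ℤ) ≤ p := by linarith
  have hx4 : (4:ℤ) ∣ x := by
    rw [hxdef]
    have : (4:ℤ) = 2 ^ 2 := by norm_num
    rw [this]
    exact pow_dvd_pow _ (by omega)
  have hAx : (2:ℤ) ^ a1 ∣ x := by rw [hxdef]; exact pow_dvd_pow _ (by omega)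
  have hBx : (2:ℤ) ^ a2 ∣ x := by rw [hxdef]; exact pow_dvd_pow _ (by omega)
  have hA2 : 2 * (2:ℤ) ^ a1 ≤ x := by
    rw [hxdef, ← pow_succ']; exact pow_le_pow_right₀ (by norm_num) (by omega)
  have hB2 : 2 * (2:ℤ) ^ a2 ≤ x := by
    rw [hxdef, ← pow_succ']; exact pow_le_pow_right₀ (by norm_num) (by omega)
  have hA1 : (1:ℤ) ≤ 2 ^ a1 := one_le_pow₀ (by norm_num)
  have hB1 : (1:ℤ) ≤ 2 ^ a2 := one_le_pow₀ (by norm_num)
  rw [← hxdef] at E ⊢
  have hx2 : 2 ≤ x := by linarith
  have hx : p + 1 ≤ x := by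
    by_contra hcon
    have h1 : x - p ≤ 0 := by omega
    have h2 : (x - p) * p ^ m ≤ 0 := mul_nonpos_of_nonpos_of_nonneg h1 (by positivity)
    have h3 : 0 ≤ (p - 1) * ((2:ℤ) ^ a1 * p ^ b1 + (2:ℤ) ^ a2 * p ^ b2) :=
      mul_nonneg (by linarith) (by positivity)
    linarith
  have hpow : ∀ i j : ℕ, i ≤ j → p ^ i ≤ p ^ j := fun i j h => pow_le_pow_right₀ hp1 h
  rcases Nat.eq_zero_or_pos b1 with hb0 | hb0
  · exfalso
    rw [hb0, pow_zero, mul_one] at E
    rcases Nat.lt_or_ge b2 (m - 1) with h1 | h1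
    · -- I0
      refine I0 p x (p ^ (m - 2)) (2 ^ a1) (2 ^ a2 * p ^ b2) hp hx ?_ hA2 ?_ ?_
      · have := hpow 1 (m - 2) (by omega)
        rwa [pow_one] at this
      · have h2 := mul_le_mul hB2 (hpow b2 (m - 2) (by omega)) (by positivity) (by linarith)
        linarith
      · rw [← E, ← pow_add, show 2 + (m - 2) = m by omega]
    · rcases Nat.lt_or_ge b2 m with h2 | h2
      · -- I1
        have hb2' : b2 = m - 1 := by omega
        have hpm : p ^ m = p * p ^ (m - 1) := by rw [← pow_succ', show m - 1 + 1 = m by omega]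
        rw [hb2', hpm] at E
        refine I1 p x (p ^ (m - 1)) (2 ^ a1) (2 ^ a2) hp hx (by omega) (hpow 2 (m - 1) (by omega)) hA1 hA2
          hB2 ?_ E
        have : x - 1 + (p - 1) * 2 ^ a1 = p ^ (m - 1) * ((x - p) * p - (p - 1) * 2 ^ a2) := by
          linarith
        rw [this]; exact dvd_mul_right _ _
      · -- I2
        have hb2' : b2 = m := by omega
        rw [hb2'] at E
        exact I2 p x (p ^ m) (2 ^ a1) (2 ^ a2) hp (hpow 3 m hm) (by linarith) hA1 hA2 hB1 hBx E
  · have hpd1 : p ∣ p ^ b1 := dvd_pow_self p (by omega)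
    have hb1d : p ^ b1 ∣ x - 1 := by
      have : x - 1 = (x - p) * p ^ m - (p - 1) * ((2:ℤ) ^ a1 * p ^ b1 + (2:ℤ) ^ a2 * p ^ b2) := by
        linarith
      rw [this]
      exact dvd_sub ((pow_dvd_pow p (by omega)).mul_left _)
        ((dvd_add (dvd_mul_left _ _) ((pow_dvd_pow p hb).mul_left _)).mul_left _)
    rcases Nat.lt_or_ge b2 m with h1 | h1
    · -- II0
      have hpm : p ^ m = p * p ^ (m - 1) := by rw [← pow_succ', show m - 1 + 1 = m by omega]
      have hAB : b1 = b2 → 4 * ((2:ℤ) ^ a1 + 2 ^ a2) ≤ 3 * x := by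
        intro h
        rcases Nat.lt_or_gt_of_ne (hne h) with h2 | h2
        · have h3 : 2 * (2:ℤ) ^ a1 ≤ 2 ^ a2 := by
            rw [← pow_succ']; exact pow_le_pow_right₀ (by norm_num) (by omega)
          linarith
        · have h3 : 2 * (2:ℤ) ^ a2 ≤ 2 ^ a1 := by
            rw [← pow_succ']; exact pow_le_pow_right₀ (by norm_num) (by omega)
          linarith
      have hD : 4 * ((2:ℤ) ^ a1 * p ^ b1 + (2:ℤ) ^ a2 * p ^ b2) ≤ 3 * (x * p ^ (m - 1)) := by
        rcases Nat.eq_or_lt_of_le hb with h2 | h2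
        · have h3 := hAB h2
          rw [← h2]
          have h4 := mul_le_mul h3 (hpow b1 (m - 1) (by omega)) (by positivity) (by linarith)
          linarith
        · have h3 := mul_le_mul hA2 (hpow b1 (m - 2) (by omega)) (by positivity) (by linarith)
          have h4 := mul_le_mul hB2 (hpow b2 (m - 1) (by omega)) (by positivity) (by linarith)
          have h5 : x * (3 * p ^ (m - 2)) ≤ x * p ^ (m - 1) := by
            apply mul_le_mul_of_nonneg_left _ (by linarith)
            rw [show m - 1 = (m - 2) + 1 by omega, pow_succ']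
            exact mul_le_mul_of_nonneg_right hp (by positivity)
          have h6 : 0 ≤ x * p ^ (m - 1) := by positivity
          linarith
      have E' := E
      rw [hpm] at E'
      rcases II0 p x (p ^ (m - 1)) _ hp hx (by omega) hodd (hpow 2 (m - 1) (by omega)) hD
        (hpd1.trans hb1d) E' with h2 | h2
      · subst h2
        refine ⟨?_, rfl⟩
        refine II0a p (2 ^ a1) (2 ^ a2) m b1 b2 hp hm hA1 hB1 hA2 hB2 hAB hb0 hb ?_
        linarith
      · exfalso
        rcases Nat.lt_or_ge 1 b1 with h3 | h3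
        · have h4 : p ^ 2 ∣ x - 1 := (pow_dvd_pow p h3).trans hb1d
          rw [h2, show 3 * p + 1 - 1 = p * 3 by ring, pow_two] at h4
          have h5 : p ∣ 3 := (mul_dvd_mul_iff_left hp0.ne').1 h4
          have h6 := le_of_dvd' (by norm_num) h5
          omega
        · have h4 : b1 = 1 := by omega
          rw [h4, pow_one, h2] at E'
          rw [h2] at hA2 hB2
          refine II0b p (p ^ (m - 1)) (2 ^ a1) (2 ^ a2 * p ^ b2) hp (hpow 2 (m - 1) (by omega)) hA2
            ?_ E'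
          have h5 := mul_le_mul hB2 (hpow b2 (m - 1) (by omega)) (by positivity) (by linarith)
          linarith
    · exfalso
      have hb2' : b2 = m := by omega
      rw [hb2'] at E
      rcases Nat.lt_or_ge b1 (m - 1) with h2 | h2
      · -- II3
        have hrs : p ^ m = p ^ b1 * p ^ (m - b1) := by rw [← pow_add, show b1 + (m - b1) = m by omega]
        rw [hrs] at E
        refine II3 p x (p ^ b1) (p ^ (m - b1)) a2 a1 hp hodd hx2 hx4 ?_ ?_ hBx hA2 hb1d E
        · rcases Nat.lt_or_ge 1 b1 with h3 | h3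
          · exact Or.inr ⟨pow_dvd_pow p h3, hpow 2 b1 h3⟩
          · left; rw [show b1 = 1 by omega, pow_one]
        · rcases Nat.lt_or_ge 2 (m - b1) with h3 | h3
          · right; exact hpow 3 _ h3
          · left; rw [show m - b1 = 2 by omega]
      · rcases Nat.lt_or_ge b1 m with h3 | h3
        · -- II2
          have hb1' : b1 = m - 1 := by omega
          have hpm : p ^ m = p * p ^ (m - 1) := by rw [← pow_succ', show m - 1 + 1 = m by omega]
          rw [hb1', hpm] at E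
          rw [hb1'] at hb1d
          refine II2 p x (p ^ (m - 1)) a2 a1 hp hodd hx2 hx4 ?_ (dvd_pow_self p (by omega)) hBx hAx
            hA2 hb1d E
          rcases Nat.lt_or_ge 3 m with h4 | h4
          · right; exact hpow 3 _ (by omega)
          · left; rw [show m - 1 = 2 by omega]
        · -- II1
          have hb1' : b1 = m := by omega
          rw [hb1'] at E hb1d
          have hfin : x = 1 + p ^ m ∧ p ^ m < p ^ 4 := by
            rcases Nat.lt_or_gt_of_ne (hne (by omega)) with h4 | h4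
            · refine II1 p x (p ^ m) (2 ^ a1) (2 ^ a2) hp (hpow 3 m hm) hx2 hA1 hB1
                (pow_dvd_pow _ h4.le) hBx hb1d ?_
              linarith
            · refine II1 p x (p ^ m) (2 ^ a2) (2 ^ a1) hp (hpow 3 m hm) hx2 hB1 hA1
                (pow_dvd_pow _ h4.le) hAx hb1d ?_
              linarith
          have h5 : m < 4 := (pow_lt_pow_iff_right₀ (by linarith : (1:ℤ) < p)).1 hfin.2
          have h6 : m = 3 := by omega
          have h7 : x = (p ^ 2 - p + 1) * (p + 1) := by rw [hfin.1, h6]; ring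
          have h8 : p ^ 2 - p + 1 ∣ (2:ℤ) ^ (k + 1) := by
            rw [← hxdef, h7]; exact dvd_mul_right _ _
          obtain ⟨y, hy⟩ : ∃ y : ℤ, y = p ^ 2 - p + 1 := ⟨_, rfl⟩
          rw [← hy] at h8
          have hy7 : 7 ≤ y := by nlinarith
          obtain ⟨u, hu⟩ : ∃ u, p = 2 * u + 1 := ⟨p / 2, by omega⟩
          have hyodd : y = 2 * (2 * u ^ 2 + u) + 1 := by rw [hy, hu]; ring
          obtain ⟨Y, rfl⟩ : ∃ Y : ℕ, y = (Y : ℤ) := ⟨y.toNat, by rw [Int.toNat_of_nonneg (by linarith)]⟩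
          have h9 : Y ∣ 2 ^ (k + 1) := by exact_mod_cast h8
          obtain ⟨t, -, ht⟩ := (Nat.dvd_prime_pow Nat.prime_two).1 h9
          have h10 : t ≠ 0 := by
            rintro rfl
            rw [pow_zero] at ht
            rw [ht] at hy7
            norm_num at hy7
          have h11 : 2 ∣ Y := by rw [ht]; exact dvd_pow_self 2 h10
          have h12 : (2:ℤ) ∣ (Y:ℤ) := by exact_mod_cast h11
          omega

end Pool.Agent.U962.NearPerfect
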